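import Pool.Agent.H25.DP.Targets2

/-!
# Two dilations: module MUX (the Möbius function times a Dirichlet character)
-/

set_option autoImplicit false

open Complex MeasureTheory Set Filter Topology

namespace Pool.Agent.H29.DP.MUX

open Pool.Agent.H25.DP

/-- the coefficients -/
noncomputable def cf {q : ℕ} (χ : DirichletCharacter ℂ q) (n : ℕ) : ℂ :=
  ((ArithmeticFunction.moebius n : ℤ) : ℂ) * χ (n : ZMod q)

lemma norm_cf {q : ℕ} (χ : DirichletCharacter ℂ q) (n : ℕ) : ‖cf χ n‖ ≤ 1 := by
  unfold cf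
  rw [norm_mul]
  have h1 : ‖((ArithmeticFunction.moebius n : ℤ) : ℂ)‖ ≤ 1 := by
    rw [Complex.norm_intCast]
    exact_mod_cast ArithmeticFunction.abs_moebius_le_one
  have h2 : ‖χ (n : ZMod q)‖ ≤ 1 := χ.norm_le_one _
  calc _ ≤ 1 * 1 := mul_le_mul h1 h2 (norm_nonneg _) zero_le_one
    _ = 1 := one_mul 1

lemma cf_zero {q : ℕ} (χ : DirichletCharacter ℂ q) : cf χ 0 = 0 := by simp [cf]

lemma cf_eq {q : ℕ} (χ : DirichletCharacter ℂ q) :
    cf χ = (fun n : ℕ => χ (n : ZMod q)) *
      (fun n : ℕ => ((ArithmeticFunction.moebius n : ℤ) : ℂ)) := by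
  funext n
  simp [cf, mul_comm]

lemma LSeries_cf {q : ℕ} [NeZero q] (χ : DirichletCharacter ℂ q) {s : ℂ} (hs : 1 < s.re) :
    LSeries (cf χ) s = (DirichletCharacter.LFunction χ s)⁻¹ := by
  have h := DirichletCharacter.LSeries.mul_mu_eq_one χ hs
  rw [← cf_eq] at h
  rw [DirichletCharacter.LFunction_eq_LSeries χ hs]
  exact eq_inv_of_mul_eq_one_right h

theorem mux (h : T_TA2) : T_MUX := by
  intro q _ χ
  by_cases hχ : χ = 1
  · subst hχ
    have hL : ∀ s : ℂ, 1 ≤ s.re → DirichletCharacter.LFunctionTrivChar₁ q s ≠ 0 := by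
      intro s hs
      by_cases h1 : s = 1
      · rw [h1]
        exact DirichletCharacter.LFunctionTrivChar₁_apply_one_ne_zero q
      · rw [DirichletCharacter.LFunctionTrivChar₁, Function.update_of_ne h1]
        exact mul_ne_zero (sub_ne_zero.2 h1)
          (DirichletCharacter.LFunction_ne_zero_of_one_le_re _ (Or.inr h1) hs)
    refine h (cf (1 : DirichletCharacter ℂ q))
      (fun s => (s - 1) / DirichletCharacter.LFunctionTrivChar₁ q s) (norm_cf _) (cf_zero _) ?_ ?_
    · refine ContinuousOn.div (by fun_prop) ?_ hL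
      exact (DirichletCharacter.differentiable_LFunctionTrivChar₁ q).continuous.continuousOn
    · intro s hs
      have h1 : s ≠ 1 := by
        rintro rfl
        simp at hs
      rw [LSeries_cf _ hs]
      simp only [DirichletCharacter.LFunctionTrivChar₁]
      rw [Function.update_of_ne h1, div_mul_eq_div_div, div_self (sub_ne_zero.2 h1), one_div]
  · refine h (cf χ) (fun s => (DirichletCharacter.LFunction χ s)⁻¹) (norm_cf _) (cf_zero _) ?_ ?_
    · refine ContinuousOn.inv₀ ?_ fun s hs =>
        DirichletCharacter.LFunction_ne_zero_of_one_le_re χ (Or.inl hχ) hs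
      exact (DirichletCharacter.differentiable_LFunction hχ).continuous.continuousOn
    · intro s hs
      exact (LSeries_cf χ hs).symm

end Pool.Agent.H29.DP.MUX
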