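import Pool.Agent.H25.DP.Targets2

/-!
# Two dilations: module TA2 (the Tauberian theorem)
-/

set_option autoImplicit false

open Complex MeasureTheory Set Filter Topology

namespace Pool.Agent.H29.DP.TA2

open Pool.Agent.H25.DP

/-- the Fejér kernel -/
noncomputable def kk (x : ℝ) : ℝ := Real.sinc (x / 2) ^ 2

lemma kk_nonneg (x : ℝ) : 0 ≤ kk x := sq_nonneg _

lemma continuous_kk : Continuous kk := by
  unfold kk
  have := Real.continuous_sinc
  fun_prop

lemma kk_le (x : ℝ) : kk x ≤ 5 * (1 + x ^ 2)⁻¹ := by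
  unfold kk
  have h0 : 0 < 1 + x ^ 2 := by positivity
  rw [← div_eq_mul_inv, le_div_iff₀ h0]
  by_cases hx : x ^ 2 ≤ 4
  · have h1 : Real.sinc (x / 2) ^ 2 ≤ 1 := by
      rw [sq_le_one_iff_abs_le_one]
      exact Real.abs_sinc_le_one _
    have h2 : 0 ≤ Real.sinc (x / 2) ^ 2 := sq_nonneg _
    nlinarith
  · push Not at hx
    have hx0 : x ≠ 0 := by
      rintro rfl
      norm_num at hx
    have hx2 : x / 2 ≠ 0 := by positivity
    rw [Real.sinc_of_ne_zero hx2, div_pow, div_pow, div_div_eq_mul_div, div_mul_eq_mul_div,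
      div_le_iff₀ (by positivity)]
    have h3 : Real.sin (x / 2) ^ 2 ≤ 1 := Real.sin_sq_le_one _
    have h4 : 0 ≤ Real.sin (x / 2) ^ 2 := sq_nonneg _
    nlinarith

lemma integrable_kk : Integrable kk := by
  refine (integrable_inv_one_add_sq.const_mul 5).mono' continuous_kk.aestronglyMeasurable
    (Eventually.of_forall fun x => ?_)
  rw [Real.norm_of_nonneg (kk_nonneg x)]
  exact kk_le x

lemma integrable_sqrt_kk : Integrable fun x => Real.sqrt |x| * kk x := by
  have h := (integrable_rpow_neg_one_add_norm_sq (E := ℝ) (μ := volume) (r := 3 / 2)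
    (by simp; norm_num)).const_mul 5
  refine h.mono' ?_ (Eventually.of_forall fun x => ?_)
  · exact (by have := continuous_kk; fun_prop : Continuous fun x => Real.sqrt |x| * kk x)
      |>.aestronglyMeasurable
  · rw [Real.norm_of_nonneg (mul_nonneg (Real.sqrt_nonneg _) (kk_nonneg x))]
    have h0 : 0 < 1 + x ^ 2 := by positivity
    have h1 : Real.sqrt |x| ≤ (1 + x ^ 2) ^ (1 / 4 : ℝ) := by
      rw [Real.sqrt_eq_rpow]
      have : |x| = (x ^ 2) ^ (1 / 2 : ℝ) := by
        rw [← Real.sqrt_eq_rpow, Real.sqrt_sq_eq_abs]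
      rw [this, ← Real.rpow_mul (sq_nonneg x)]
      have h2 : (1 / 2 * (1 / 2) : ℝ) = 1 / 4 := by norm_num
      rw [h2]
      exact Real.rpow_le_rpow (sq_nonneg x) (by linarith) (by norm_num)
    calc Real.sqrt |x| * kk x ≤ (1 + x ^ 2) ^ (1 / 4 : ℝ) * (5 * (1 + x ^ 2)⁻¹) := by
          refine mul_le_mul h1 (kk_le x) (kk_nonneg x) (by positivity)
      _ = 5 * (1 + ‖x‖ ^ 2) ^ (-(3 / 2) / 2 : ℝ) := by
          rw [← Real.rpow_neg_one (1 + x ^ 2)]
          rw [show (1 + x ^ 2) ^ (1 / 4 : ℝ) * (5 * (1 + x ^ 2) ^ (-1 : ℝ)) =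
            5 * ((1 + x ^ 2) ^ (1 / 4 : ℝ) * (1 + x ^ 2) ^ (-1 : ℝ)) by ring,
            ← Real.rpow_add h0]
          have h3 : ‖x‖ ^ 2 = x ^ 2 := by rw [Real.norm_eq_abs, sq_abs]
          rw [h3]
          norm_num

lemma integral_kk_pos : 0 < ∫ x, kk x := by
  rw [integral_pos_iff_support_of_nonneg kk_nonneg integrable_kk]
  refine (continuous_kk.isOpen_support).measure_pos _ ⟨0, ?_⟩
  simp [kk]

variable (a : ℕ → ℂ)

/-- the summatory function -/
noncomputable def SS (u : ℝ) : ℂ := ∑ n ∈ Finset.Icc 1 ⌊Real.exp u⌋₊, a n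

/-- the normalised summatory function -/
noncomputable def sg (u : ℝ) : ℂ := SS a u * (Real.exp (-u) : ℝ)

lemma measurable_SS : Measurable (SS a) := by
  have h : Measurable fun m : ℕ => ∑ n ∈ Finset.Icc 1 m, a n := measurable_from_nat
  exact h.comp (Nat.measurable_floor.comp Real.measurable_exp)

lemma measurable_sg : Measurable (sg a) := by
  unfold sg
  exact (measurable_SS a).mul (by fun_prop)

variable {a} (ha : ∀ n, ‖a n‖ ≤ 1)

include ha

lemma norm_SS (u : ℝ) : ‖SS a u‖ ≤ Real.exp u := by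
  unfold SS
  refine (norm_sum_le _ _).trans ?_
  refine (Finset.sum_le_sum fun n _ => ha n).trans ?_
  simp only [Finset.sum_const, Nat.card_Icc, add_tsub_cancel_right, nsmul_eq_mul, mul_one]
  exact Nat.floor_le (Real.exp_pos u).le

lemma norm_sg (u : ℝ) : ‖sg a u‖ ≤ 1 := by
  unfold sg
  rw [norm_mul, Complex.norm_real, Real.norm_of_nonneg (Real.exp_pos _).le]
  calc ‖SS a u‖ * Real.exp (-u) ≤ Real.exp u * Real.exp (-u) := by
        gcongr
        exact norm_SS ha u
    _ = 1 := by rw [← Real.exp_add]; simp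

lemma norm_SS_sub {u v : ℝ} (h : u ≤ v) : ‖SS a v - SS a u‖ ≤ Real.exp v - Real.exp u + 1 := by
  unfold SS
  have h1 : ⌊Real.exp u⌋₊ ≤ ⌊Real.exp v⌋₊ := Nat.floor_mono (Real.exp_le_exp.2 h)
  have h2 : ∑ n ∈ Finset.Icc 1 ⌊Real.exp v⌋₊, a n - ∑ n ∈ Finset.Icc 1 ⌊Real.exp u⌋₊, a n =
      ∑ n ∈ Finset.Ioc ⌊Real.exp u⌋₊ ⌊Real.exp v⌋₊, a n := by
    rw [sub_eq_iff_eq_add]
    have e1 : ∀ m : ℕ, Finset.Icc 1 m = Finset.Ioc 0 m := fun m => by ext; simp; omega
    rw [e1, e1, add_comm, Finset.sum_Ioc_consecutive _ (Nat.zero_le _) h1]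
  rw [h2]
  refine (norm_sum_le _ _).trans ?_
  refine (Finset.sum_le_sum fun n _ => ha n).trans ?_
  simp only [Finset.sum_const, Nat.card_Ioc, nsmul_eq_mul, mul_one]
  rw [Nat.cast_sub h1]
  have h3 := Nat.floor_le (Real.exp_pos v).le
  have h4 := Nat.lt_floor_add_one (Real.exp u)
  linarith

lemma norm_sg_sub {u v : ℝ} (h : u ≤ v) : ‖sg a v - sg a u‖ ≤ 2 * (v - u) + Real.exp (-v) := by
  have h1 : sg a v - sg a u = (SS a v - SS a u) * (Real.exp (-v) : ℝ) -
      SS a u * ((Real.exp (-u) - Real.exp (-v) : ℝ) : ℂ) := by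
    unfold sg
    push_cast
    ring
  have h2 : 1 - Real.exp (u - v) ≤ v - u := by
    have := Real.add_one_le_exp (u - v)
    linarith
  have h3 : Real.exp (-v) ≤ Real.exp (-u) := Real.exp_le_exp.2 (by linarith)
  rw [h1]
  refine (norm_sub_le _ _).trans ?_
  rw [norm_mul, norm_mul, Complex.norm_real, Complex.norm_real,
    Real.norm_of_nonneg (Real.exp_pos _).le, Real.norm_of_nonneg (by linarith)]
  have h4 : ‖SS a v - SS a u‖ * Real.exp (-v) ≤ (Real.exp v - Real.exp u + 1) * Real.exp (-v) := by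
    gcongr
    exact norm_SS_sub ha h
  have h5 : ‖SS a u‖ * (Real.exp (-u) - Real.exp (-v)) ≤
      Real.exp u * (Real.exp (-u) - Real.exp (-v)) := by
    refine mul_le_mul_of_nonneg_right (norm_SS ha u) (by linarith)
  have h6 : Real.exp v * Real.exp (-v) = 1 := by rw [← Real.exp_add]; simp
  have h7 : Real.exp u * Real.exp (-u) = 1 := by rw [← Real.exp_add]; simp
  have h8 : Real.exp u * Real.exp (-v) = Real.exp (u - v) := by rw [← Real.exp_add]; rfl
  nlinarith

/-- the extension by zero -/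
lemma norm_ext_sub {u v : ℝ} (hv : 1 ≤ v) :
    ‖sg a v - (Ioi (0 : ℝ)).indicator (sg a) u‖ ≤ 2 * |v - u| + Real.exp (-v) := by
  by_cases hu : u ∈ Ioi (0 : ℝ)
  · rw [indicator_of_mem hu]
    rcases le_total u v with h | h
    · rw [abs_of_nonneg (by linarith)]
      exact norm_sg_sub ha h
    · rw [norm_sub_rev, abs_of_nonpos (by linarith)]
      have h1 := norm_sg_sub ha h
      have h2 : Real.exp (-u) ≤ Real.exp (-v) := Real.exp_le_exp.2 (by linarith)
      linarith
  · rw [indicator_of_notMem hu, sub_zero]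
    have h1 := norm_sg ha v
    have h2 : u ≤ 0 := by simpa using hu
    have h3 := Real.exp_pos (-v)
    rw [abs_of_nonneg (by linarith)]
    linarith

lemma norm_ext_sub_le_two (u v : ℝ) :
    ‖sg a v - (Ioi (0 : ℝ)).indicator (sg a) u‖ ≤ 2 := by
  refine (norm_sub_le _ _).trans ?_
  have h1 := norm_sg ha v
  have h2 : ‖(Ioi (0 : ℝ)).indicator (sg a) u‖ ≤ 1 := by
    rw [norm_indicator_eq_indicator_norm]
    refine indicator_apply_le' (fun _ => norm_sg ha u) fun _ => zero_le_one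
  linarith

lemma norm_ext_sub_sqrt {u v : ℝ} (hv : 1 ≤ v) :
    ‖sg a v - (Ioi (0 : ℝ)).indicator (sg a) u‖ ≤
      2 * Real.sqrt |v - u| + Real.sqrt (2 * Real.exp (-v)) := by
  set n := ‖sg a v - (Ioi (0 : ℝ)).indicator (sg a) u‖ with hn
  have h0 : 0 ≤ n := norm_nonneg _
  have h1 : n ≤ 2 * |v - u| + Real.exp (-v) := norm_ext_sub ha hv
  have h2 : n ≤ 2 := norm_ext_sub_le_two ha u v
  have h3 : n ^ 2 ≤ 2 ^ 2 * |v - u| + 2 * Real.exp (-v) := by nlinarith
  have h4 : n ≤ Real.sqrt (2 ^ 2 * |v - u| + 2 * Real.exp (-v)) := Real.le_sqrt_of_sq_le h3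
  refine h4.trans ?_
  have h5 : Real.sqrt (2 ^ 2 * |v - u|) = 2 * Real.sqrt |v - u| := by
    rw [Real.sqrt_mul (by norm_num), Real.sqrt_sq (by norm_num)]
  rw [← h5]
  refine Real.sqrt_le_iff.2 ⟨by positivity, ?_⟩
  have h6 := Real.sq_sqrt (show (0 : ℝ) ≤ 2 ^ 2 * |v - u| by positivity)
  have h7 := Real.sq_sqrt (show (0 : ℝ) ≤ 2 * Real.exp (-v) by positivity)
  have h8 := mul_nonneg (Real.sqrt_nonneg (2 ^ 2 * |v - u|)) (Real.sqrt_nonneg (2 * Real.exp (-v)))
  nlinarith

/-- the main inequality -/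
lemma main_ineq {lam v : ℝ} (hl : 0 < lam) (hv : 1 ≤ v) :
    ‖sg a v‖ * ∫ x, kk x ≤ ‖∫ u in Ioi (0 : ℝ), (∑ n ∈ Finset.Icc 1 ⌊Real.exp u⌋₊, a n) *
      (Real.exp (-u) * (lam * (Real.sinc (lam * (v - u) / 2)) ^ 2) : ℝ)‖ +
      (2 * (Real.sqrt lam)⁻¹ * ∫ x, Real.sqrt |x| * kk x) +
      Real.sqrt (2 * Real.exp (-v)) * ∫ x, kk x := by
  have hK : Integrable fun u : ℝ => lam * kk (lam * (v - u)) := by
    have h1 : Integrable fun u : ℝ => kk (lam * u) := integrable_kk.comp_mul_left' hl.ne'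
    exact (h1.comp_sub_left v).const_mul lam
  have hKi : ∫ u : ℝ, lam * kk (lam * (v - u)) = ∫ x, kk x := by
    rw [integral_const_mul, integral_sub_left_eq_self (fun u => kk (lam * u)) volume v,
      Measure.integral_comp_mul_left, abs_of_pos (inv_pos.2 hl), smul_eq_mul, ← mul_assoc,
      mul_inv_cancel₀ hl.ne', one_mul]
  have hS : Integrable fun u : ℝ => Real.sqrt |v - u| * (lam * kk (lam * (v - u))) := by
    have h1 : Integrable fun u : ℝ => Real.sqrt |lam * u| * kk (lam * u) :=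
      integrable_sqrt_kk.comp_mul_left' hl.ne'
    have h2 := (h1.comp_sub_left v).const_mul (lam * (Real.sqrt lam)⁻¹)
    refine h2.congr (Eventually.of_forall fun u => ?_)
    simp only
    rw [abs_mul, abs_of_pos hl, Real.sqrt_mul hl.le]
    have : Real.sqrt lam ≠ 0 := by positivity
    field_simp
  have hSi : ∫ u : ℝ, Real.sqrt |v - u| * (lam * kk (lam * (v - u))) =
      (Real.sqrt lam)⁻¹ * ∫ x, Real.sqrt |x| * kk x := by
    have h1 : ∀ u : ℝ, Real.sqrt |v - u| * (lam * kk (lam * (v - u))) =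
        (lam * (Real.sqrt lam)⁻¹) * (Real.sqrt |lam * (v - u)| * kk (lam * (v - u))) := by
      intro u
      rw [abs_mul, abs_of_pos hl, Real.sqrt_mul hl.le]
      have : Real.sqrt lam ≠ 0 := by positivity
      field_simp
    simp_rw [h1]
    rw [integral_const_mul,
      integral_sub_left_eq_self (fun u => Real.sqrt |lam * u| * kk (lam * u)) volume v,
      Measure.integral_comp_mul_left (fun x => Real.sqrt |x| * kk x), abs_of_pos (inv_pos.2 hl),
      smul_eq_mul]
    field_simp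
  have hg : Integrable fun u : ℝ => (Ioi (0 : ℝ)).indicator (sg a) u *
      ((lam * kk (lam * (v - u)) : ℝ) : ℂ) := by
    refine hK.mono' ?_ (Eventually.of_forall fun u => ?_)
    · refine AEStronglyMeasurable.mul ?_ ?_
      · exact ((measurable_sg a).indicator measurableSet_Ioi).aestronglyMeasurable
      · exact (by have := continuous_kk; fun_prop :
          Continuous fun u : ℝ => ((lam * kk (lam * (v - u)) : ℝ) : ℂ)).aestronglyMeasurable
    · rw [norm_mul, Complex.norm_real, Real.norm_of_nonneg (mul_nonneg hl.le (kk_nonneg _))]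
      have h2 : ‖(Ioi (0 : ℝ)).indicator (sg a) u‖ ≤ 1 := by
        rw [norm_indicator_eq_indicator_norm]
        refine indicator_apply_le' (fun _ => norm_sg ha u) fun _ => zero_le_one
      exact mul_le_of_le_one_left (mul_nonneg hl.le (kk_nonneg _)) h2
  have hint : ∫ u in Ioi (0 : ℝ), (∑ n ∈ Finset.Icc 1 ⌊Real.exp u⌋₊, a n) *
      (Real.exp (-u) * (lam * (Real.sinc (lam * (v - u) / 2)) ^ 2) : ℝ) =
      ∫ u : ℝ, (Ioi (0 : ℝ)).indicator (sg a) u * ((lam * kk (lam * (v - u)) : ℝ) : ℂ) := by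
    rw [← integral_indicator measurableSet_Ioi]
    refine integral_congr_ae (Eventually.of_forall fun u => ?_)
    simp only
    by_cases hu : u ∈ Ioi (0 : ℝ)
    · rw [indicator_of_mem hu, indicator_of_mem hu]
      unfold sg SS kk
      push_cast
      ring
    · rw [indicator_of_notMem hu, indicator_of_notMem hu, zero_mul]
  have hdiff : sg a v * ((∫ x, kk x : ℝ) : ℂ) - ∫ u : ℝ, (Ioi (0 : ℝ)).indicator (sg a) u *
      ((lam * kk (lam * (v - u)) : ℝ) : ℂ) =
      ∫ u : ℝ, (sg a v - (Ioi (0 : ℝ)).indicator (sg a) u) *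
        ((lam * kk (lam * (v - u)) : ℝ) : ℂ) := by
    rw [← hKi, ← integral_complex_ofReal, ← integral_const_mul, ← integral_sub _ hg]
    · refine integral_congr_ae (Eventually.of_forall fun u => ?_)
      simp only
      ring
    · exact (hK.ofReal (𝕜 := ℂ)).const_mul _
  have hbd : ‖∫ u : ℝ, (sg a v - (Ioi (0 : ℝ)).indicator (sg a) u) *
        ((lam * kk (lam * (v - u)) : ℝ) : ℂ)‖ ≤
      ∫ u : ℝ, (2 * (Real.sqrt |v - u| * (lam * kk (lam * (v - u)))) +
        Real.sqrt (2 * Real.exp (-v)) * (lam * kk (lam * (v - u)))) := by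
    refine norm_integral_le_of_norm_le ((hS.const_mul 2).add (hK.const_mul _))
      (Eventually.of_forall fun u => ?_)
    rw [norm_mul, Complex.norm_real, Real.norm_of_nonneg (mul_nonneg hl.le (kk_nonneg _))]
    have h1 := norm_ext_sub_sqrt ha (u := u) hv
    have h2 : 0 ≤ lam * kk (lam * (v - u)) := mul_nonneg hl.le (kk_nonneg _)
    have h3 := mul_le_mul_of_nonneg_right h1 h2
    linarith
  rw [integral_add (hS.const_mul 2) (hK.const_mul _), integral_const_mul, integral_const_mul,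
    hSi, hKi] at hbd
  rw [hint]
  have hnorm : ‖sg a v‖ * ∫ x, kk x = ‖sg a v * ((∫ x, kk x : ℝ) : ℂ)‖ := by
    rw [norm_mul, Complex.norm_real, Real.norm_of_nonneg integral_kk_pos.le]
  rw [hnorm]
  have h5 := norm_sub_norm_le (sg a v * ((∫ x, kk x : ℝ) : ℂ))
    (∫ u : ℝ, (Ioi (0 : ℝ)).indicator (sg a) u * ((lam * kk (lam * (v - u)) : ℝ) : ℂ))
  rw [hdiff] at h5
  linarith

omit ha

theorem ta2 (h : T_TA1) : T_TA2 := by
  intro a G ha ha0 hG hGL
  have hsg : Tendsto (fun v => ‖sg a v‖) atTop (𝓝 0) := by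
    rw [Metric.tendsto_atTop]
    intro ε hε
    set c := ∫ x, kk x with hc
    have hc0 : 0 < c := integral_kk_pos
    set C₁ := ∫ x, Real.sqrt |x| * kk x with hC₁
    have hC₁0 : 0 ≤ C₁ := integral_nonneg fun x => mul_nonneg (Real.sqrt_nonneg _) (kk_nonneg x)
    -- choose lam
    obtain ⟨lam, hl, hlam⟩ : ∃ lam : ℝ, 0 < lam ∧ 2 * (Real.sqrt lam)⁻¹ * C₁ < c * ε / 3 := by
      have h1 : Tendsto (fun lam : ℝ => 2 * (Real.sqrt lam)⁻¹ * C₁) atTop (𝓝 (2 * 0 * C₁)) :=
        ((tendsto_inv_atTop_zero.comp Real.tendsto_sqrt_atTop).const_mul 2).mul_const C₁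
      rw [mul_zero, zero_mul] at h1
      have h2 := (h1.eventually_lt_const (show (0 : ℝ) < c * ε / 3 by positivity)).and
        (eventually_gt_atTop 0)
      obtain ⟨lam, h3, h4⟩ := h2.exists
      exact ⟨lam, h4, h3⟩
    have hT := (h a G ha ha0 hG hGL lam hl).norm
    rw [norm_zero] at hT
    have hE : Tendsto (fun v : ℝ => Real.sqrt (2 * Real.exp (-v)) * c) atTop (𝓝 0) := by
      have h1 : Tendsto (fun v : ℝ => Real.exp (-v)) atTop (𝓝 0) := Real.tendsto_exp_neg_atTop_nhds_zero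
      have h2 := ((h1.const_mul 2).sqrt).mul_const c
      simpa using h2
    have h3 : 0 < c * ε / 3 := by positivity
    obtain ⟨v₀, hv₀⟩ := eventually_atTop.1 (((hT.eventually_lt_const h3).and
      (hE.eventually_lt_const h3)).and (eventually_ge_atTop 1))
    refine ⟨v₀, fun v hv => ?_⟩
    obtain ⟨⟨h4, h5⟩, h6⟩ := hv₀ v hv
    have h7 := main_ineq ha hl h6
    rw [← hc, ← hC₁] at h7
    rw [Real.dist_eq, sub_zero, abs_of_nonneg (norm_nonneg _)]
    have h8 : ‖sg a v‖ * c < ε * c := by linarith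
    exact lt_of_mul_lt_mul_right h8 hc0.le
  have hN : Tendsto (fun N : ℕ => ‖sg a (Real.log N)‖ + 1 / (N : ℝ)) atTop (𝓝 0) := by
    have h1 := hsg.comp (Real.tendsto_log_atTop.comp tendsto_natCast_atTop_atTop)
    have h2 := h1.add tendsto_one_div_atTop_nhds_zero_nat
    rw [add_zero] at h2
    exact h2
  refine squeeze_zero_norm' ?_ hN
  filter_upwards [eventually_ge_atTop 1] with N hN1
  have hN0 : (0 : ℝ) < N := by exact_mod_cast hN1
  have h1 : SS a (Real.log N) = ∑ n ∈ Finset.range N, a n + a N := by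
    unfold SS
    rw [Real.exp_log hN0, Nat.floor_natCast, ← Finset.sum_range_succ, Finset.sum_range_eq_add_Ico _
      (Nat.succ_pos N), ha0, zero_add]
    rfl
  have h2 : (∑ n ∈ Finset.range N, a n) / (N : ℂ) = sg a (Real.log N) - a N / N := by
    unfold sg
    rw [h1, Real.exp_neg, Real.exp_log hN0]
    have : (N : ℂ) ≠ 0 := by exact_mod_cast hN0.ne'
    push_cast
    field_simp
    ring
  rw [h2]
  refine (norm_sub_le _ _).trans ?_
  gcongr
  rw [norm_div, Complex.norm_natCast]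
  gcongr
  exact ha N

end Pool.Agent.H29.DP.TA2
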