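import Pool.Agent.H25.DP.Targets2

/-!
# Two dilations: module PER (the Möbius function times a periodic function)
-/

set_option autoImplicit false

open Complex MeasureTheory Set Filter Topology

namespace Pool.Agent.H29.DP.PER

open Pool.Agent.H25.DP

/-- the Möbius function as a complex number -/
noncomputable def mu (n : ℕ) : ℂ := ((ArithmeticFunction.moebius n : ℤ) : ℂ)

/-- periodic functions supported on the units -/
lemma per_unit (h : T_MUX) {q : ℕ} (hq : 1 ≤ q) (g : ℕ → ℂ) (hg : ∀ n, g (n + q) = g n)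
    (hg0 : ∀ n, ¬ n.Coprime q → g n = 0) :
    Tendsto (fun N : ℕ => (∑ n ∈ Finset.range N, mu n * g n) / (N : ℂ)) atTop (𝓝 0) := by
  have : NeZero q := ⟨by omega⟩
  have hφ : (q.totient : ℂ) ≠ 0 := by
    have : 0 < q.totient := Nat.totient_pos.2 (by omega)
    exact_mod_cast this.ne'
  have hper : ∀ n : ℕ, g n = g ((n : ZMod q).val) := by
    intro n
    rw [ZMod.val_natCast]
    exact ((show Function.Periodic g q from hg).map_mod_nat n).symm
  have hgn : ∀ n : ℕ, g n = ∑ b : ZMod q, ∑ χ : DirichletCharacter ℂ q,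
      (g b.val * (q.totient : ℂ)⁻¹ * χ b⁻¹) * χ (n : ZMod q) := by
    intro n
    have h1 : ∀ b : ZMod q, ∑ χ : DirichletCharacter ℂ q,
        (g b.val * (q.totient : ℂ)⁻¹ * χ b⁻¹) * χ (n : ZMod q) =
        if b = (n : ZMod q) then g b.val else 0 := by
      intro b
      simp_rw [mul_assoc]
      rw [← Finset.mul_sum, ← Finset.mul_sum]
      by_cases hb : IsUnit b
      · rw [DirichletCharacter.sum_char_inv_mul_char_eq ℂ hb]
        split_ifs
        · rw [inv_mul_cancel₀ hφ, mul_one]
        · simp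
      · have h2 : g b.val = 0 := by
          refine hg0 _ fun h3 => hb ?_
          rw [← ZMod.natCast_zmod_val b]
          exact (ZMod.isUnit_iff_coprime _ _).2 h3
        simp [h2]
    simp_rw [h1]
    rw [Finset.sum_ite_eq' Finset.univ (n : ZMod q) fun b => g b.val, if_pos (Finset.mem_univ _)]
    exact hper n
  have hsum : (fun N : ℕ => (∑ n ∈ Finset.range N, mu n * g n) / (N : ℂ)) =
      fun N : ℕ => ∑ b : ZMod q, ∑ χ : DirichletCharacter ℂ q,
        (g b.val * (q.totient : ℂ)⁻¹ * χ b⁻¹) *
          ((∑ n ∈ Finset.range N, mu n * χ (n : ZMod q)) / (N : ℂ)) := by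
    funext N
    rw [Finset.sum_div]
    calc ∑ n ∈ Finset.range N, mu n * g n / (N : ℂ) =
        ∑ n ∈ Finset.range N, ∑ b : ZMod q, ∑ χ : DirichletCharacter ℂ q,
          (g b.val * (q.totient : ℂ)⁻¹ * χ b⁻¹) * (mu n * χ (n : ZMod q) / (N : ℂ)) := by
          refine Finset.sum_congr rfl fun n _ => ?_
          conv_lhs => rw [hgn n]
          rw [Finset.mul_sum, Finset.sum_div]
          refine Finset.sum_congr rfl fun b _ => ?_
          rw [Finset.mul_sum, Finset.sum_div]
          refine Finset.sum_congr rfl fun χ _ => ?_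
          ring
      _ = _ := by
          rw [Finset.sum_comm]
          refine Finset.sum_congr rfl fun b _ => ?_
          rw [Finset.sum_comm]
          refine Finset.sum_congr rfl fun χ _ => ?_
          rw [Finset.sum_div, Finset.mul_sum]
  rw [hsum]
  have hlim : (0 : ℂ) = ∑ b : ZMod q, ∑ χ : DirichletCharacter ℂ q,
      (g b.val * (q.totient : ℂ)⁻¹ * χ b⁻¹) * 0 := by simp
  rw [hlim]
  refine tendsto_finsetSum _ fun b _ => tendsto_finsetSum _ fun χ _ => ?_
  exact (h q χ).const_mul _

/-- sums over multiples -/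
lemma sum_mult {d : ℕ} (hd : 0 < d) (T : ℕ → ℂ) (hT : ∀ n, ¬ d ∣ n → T n = 0) (N : ℕ) :
    ∑ n ∈ Finset.range N, T n = ∑ k ∈ Finset.range ((N + d - 1) / d), T (d * k) := by
  have h1 : (Finset.range N).filter (d ∣ ·) =
      (Finset.range ((N + d - 1) / d)).image (d * ·) := by
    ext n
    simp only [Finset.mem_filter, Finset.mem_range, Finset.mem_image]
    constructor
    · rintro ⟨h2, k, rfl⟩
      refine ⟨k, ?_, rfl⟩
      rw [Nat.lt_iff_add_one_le, Nat.le_div_iff_mul_le hd]
      have : (k + 1) * d = d * k + d := by ring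
      omega
    · rintro ⟨k, h2, rfl⟩
      refine ⟨?_, dvd_mul_right _ _⟩
      rw [Nat.lt_iff_add_one_le, Nat.le_div_iff_mul_le hd] at h2
      have : (k + 1) * d = d * k + d := by ring
      omega
  rw [← Finset.sum_filter_add_sum_filter_not (Finset.range N) (d ∣ ·), h1,
    Finset.sum_eq_zero (s := (Finset.range N).filter fun n => ¬ d ∣ n), add_zero,
    Finset.sum_image]
  · intro x _ y _ hxy
    exact Nat.eq_of_mul_eq_mul_left hd hxy
  · intro n hn
    exact hT n (Finset.mem_filter.1 hn).2

lemma term_eq {q d : ℕ} (hq : 1 ≤ q) (hd : d ∣ q) (g : ℕ → ℂ) (k : ℕ) :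
    (if (d * k).gcd q = d then mu (d * k) * g (d * k) else 0) =
      mu d * (mu k * if k.Coprime q then g (d * k) else 0) := by
  obtain ⟨e, rfl⟩ := hd
  have hd0 : 0 < d := Nat.pos_of_ne_zero fun h => by simp [h] at hq
  have h1 : (d * k).gcd (d * e) = d ↔ k.Coprime e := by
    rw [Nat.gcd_mul_left]
    constructor
    · intro h
      have : d * k.gcd e = d * 1 := by rw [h, mul_one]
      exact Nat.eq_of_mul_eq_mul_left hd0 this
    · intro h
      rw [Nat.Coprime.gcd_eq_one h, mul_one]
  have h2 : k.Coprime (d * e) ↔ k.Coprime d ∧ k.Coprime e := Nat.coprime_mul_iff_right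
  by_cases he : k.Coprime e
  · rw [if_pos (h1.2 he)]
    by_cases hkd : k.Coprime d
    · rw [if_pos (h2.2 ⟨hkd, he⟩)]
      unfold mu
      rw [ArithmeticFunction.isMultiplicative_moebius.map_mul_of_coprime hkd.symm]
      push_cast
      ring
    · rw [if_neg fun h => hkd (h2.1 h).1]
      have h3 : mu (d * k) = 0 := by
        unfold mu
        rw [ArithmeticFunction.moebius_eq_zero_of_not_squarefree]
        · simp
        · intro h4
          exact hkd (Nat.squarefree_mul_iff.1 h4).1.symm
      rw [h3]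
      simp
  · rw [if_neg fun h => he (h1.1 h), if_neg fun h => he (h2.1 h).2]
    simp

theorem per (h : T_MUX) : T_PER := by
  intro q g hq hg
  change Tendsto (fun N : ℕ => (∑ n ∈ Finset.range N, mu n * g n) / (N : ℂ)) atTop (𝓝 0)
  have hq0 : q ≠ 0 := by omega
  have hsum : (fun N : ℕ => (∑ n ∈ Finset.range N, mu n * g n) / (N : ℂ)) =
      fun N : ℕ => ∑ d ∈ q.divisors, mu d *
        ((∑ k ∈ Finset.range ((N + d - 1) / d), mu k * if k.Coprime q then g (d * k) else 0) /
          (N : ℂ)) := by
    funext N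
    have h1 : ∑ n ∈ Finset.range N, mu n * g n = ∑ d ∈ q.divisors,
        ∑ n ∈ Finset.range N, if n.gcd q = d then mu n * g n else 0 := by
      rw [Finset.sum_comm]
      refine Finset.sum_congr rfl fun n _ => ?_
      rw [Finset.sum_ite_eq, if_pos]
      exact Nat.mem_divisors.2 ⟨Nat.gcd_dvd_right _ _, hq0⟩
    rw [h1, Finset.sum_div]
    refine Finset.sum_congr rfl fun d hd => ?_
    have hdq := (Nat.mem_divisors.1 hd).1
    have hd0 : 0 < d := Nat.pos_of_mem_divisors hd
    rw [sum_mult hd0 (fun n => if n.gcd q = d then mu n * g n else 0) (fun n hn => if_neg fun h2 =>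
      hn (by rw [← h2]; exact Nat.gcd_dvd_left _ _))]
    simp_rw [term_eq hq hdq]
    rw [← Finset.mul_sum, mul_div_assoc]
  rw [hsum]
  suffices hsuff : ∀ d ∈ q.divisors, Tendsto (fun N : ℕ =>
      (∑ k ∈ Finset.range ((N + d - 1) / d), mu k * if k.Coprime q then g (d * k) else 0) /
        (N : ℂ)) atTop (𝓝 0) by
    have h3 := tendsto_finsetSum q.divisors fun d hd => (hsuff d hd).const_mul (mu d)
    simpa only [mul_zero, Finset.sum_const_zero] using h3
  intro d hd
  have hd0 : 0 < d := Nat.pos_of_mem_divisors hd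
  have hG := per_unit h hq (fun k => if k.Coprime q then g (d * k) else 0)
    (fun n => by
      have h5 : (n + q).Coprime q ↔ n.Coprime q := Nat.coprime_add_self_left
      have h6 : g (d * (n + q)) = g (d * n) := by
        rw [mul_add]
        exact (show Function.Periodic g q from hg).nat_mul d _
      simp only [h5, h6])
    (fun n hn => if_neg hn)
  -- along `M = ⌈N / d⌉`
  have hM : Tendsto (fun N : ℕ => (N + d - 1) / d) atTop atTop := by
    refine tendsto_atTop_mono (fun N => ?_) (Nat.tendsto_div_const_atTop hd0.ne')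
    exact Nat.div_le_div_right (by omega)
  have hlast := (hG.comp hM).norm
  rw [norm_zero] at hlast
  refine squeeze_zero_norm' ?_ hlast
  filter_upwards [eventually_ge_atTop 1] with N hN
  set M := (N + d - 1) / d with hMdef
  have hMN : M ≤ N := by
    rw [hMdef]
    refine Nat.div_le_of_le_mul ?_
    obtain ⟨N', rfl⟩ : ∃ N', N = N' + 1 := ⟨N - 1, by omega⟩
    obtain ⟨d', rfl⟩ : ∃ d', d = d' + 1 := ⟨d - 1, by omega⟩
    have : (d' + 1) * (N' + 1) = d' * N' + d' + N' + 1 := by ring
    have : 0 ≤ d' * N' := Nat.zero_le _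
    omega
  have hM1 : 1 ≤ M := by
    rw [hMdef, Nat.le_div_iff_mul_le hd0]
    omega
  have hM0 : (0 : ℝ) < M := by exact_mod_cast hM1
  have hMN' : (M : ℝ) ≤ N := by exact_mod_cast hMN
  simp only [Function.comp_def, norm_div, Complex.norm_natCast]
  exact div_le_div_of_nonneg_left (norm_nonneg _) hM0 hMN'

end Pool.Agent.H29.DP.PER
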