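import Pool.Agent.H25.DP.Targets2
import Pool.Agent.H32.PZ.VS

/-!
# Two dilations: module T1 (sums without multiplicative structure)
-/

set_option autoImplicit false

open Complex MeasureTheory Set Filter Topology

namespace Pool.Agent.H29.DP.T1

open Pool.Agent.H25.DP

/-- the second derivative test for an interval of natural numbers -/
lemma vs_nat {α C₀ : ℝ} (hC₀ : 0 < C₀)
    (hvs : ∀ (A B : ℤ) (f f' f'' : ℝ → ℝ) (lam : ℝ), 0 < lam → A ≤ B →
    (∀ x ∈ Icc (A : ℝ) B, HasDerivAt f (f' x) x) → (∀ x ∈ Icc (A : ℝ) B, HasDerivAt f' (f'' x) x) →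
    (∀ x ∈ Icc (A : ℝ) B, lam ≤ f'' x ∧ f'' x ≤ α * lam) →
    ‖∑ n ∈ Finset.Icc A B, Pool.Agent.H28.MZ.ei (2 * Real.pi * f n)‖ ≤
      C₀ * (((B : ℝ) - A + 1) * Real.sqrt lam + 1 / Real.sqrt lam))
    (S : Finset ℕ) (L : ℝ) (hL : 0 ≤ L) (hS : ∀ x ∈ S, ∀ z ∈ S, ∀ y : ℕ, x ≤ y → y ≤ z → y ∈ S)
    (hSL : ∀ x ∈ S, ∀ z ∈ S, (z : ℝ) - x + 1 ≤ L)
    (f f' f'' : ℝ → ℝ) (lam : ℝ) (hlam : 0 < lam)
    (h1 : ∀ a ∈ S, ∀ b ∈ S, ∀ x ∈ Icc (a : ℝ) b, HasDerivAt f (f' x) x)
    (h2 : ∀ a ∈ S, ∀ b ∈ S, ∀ x ∈ Icc (a : ℝ) b, HasDerivAt f' (f'' x) x)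
    (h3 : ∀ a ∈ S, ∀ b ∈ S, ∀ x ∈ Icc (a : ℝ) b, lam ≤ f'' x ∧ f'' x ≤ α * lam) :
    ‖∑ n ∈ S, cexp ((2 * Real.pi * f n : ℝ) * I)‖ ≤
      C₀ * (L * Real.sqrt lam + 1 / Real.sqrt lam) := by
  by_cases hne : S.Nonempty
  · set a := S.min' hne with ha
    set b := S.max' hne with hb
    have haS : a ∈ S := S.min'_mem hne
    have hbS : b ∈ S := S.max'_mem hne
    have hab : a ≤ b := S.min'_le_max' hne
    have hSI : S = Finset.Icc a b := by
      ext n
      rw [Finset.mem_Icc]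
      exact ⟨fun h => ⟨S.min'_le n h, S.le_max' n h⟩, fun h => hS a haS b hbS n h.1 h.2⟩
    have hcast : ∑ n ∈ S, cexp ((2 * Real.pi * f n : ℝ) * I) =
        ∑ n ∈ Finset.Icc (a : ℤ) (b : ℤ), Pool.Agent.H28.MZ.ei (2 * Real.pi * f n) := by
      rw [hSI]
      refine Finset.sum_bij (fun (n : ℕ) _ => (n : ℤ)) ?_ ?_ ?_ ?_
      · intro n hn
        rw [Finset.mem_Icc] at hn ⊢
        exact_mod_cast hn
      · intro n _ m _ h
        exact_mod_cast h
      · intro m hm
        rw [Finset.mem_Icc] at hm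
        have hm0 : 0 ≤ m := le_trans (Int.natCast_nonneg a) hm.1
        obtain ⟨n, rfl⟩ := Int.eq_ofNat_of_zero_le hm0
        refine ⟨n, ?_, rfl⟩
        rw [Finset.mem_Icc]
        exact_mod_cast hm
      · intro n _
        unfold Pool.Agent.H28.MZ.ei
        push_cast
        rfl
    rw [hcast]
    refine (hvs a b f f' f'' lam hlam (by exact_mod_cast hab) (by exact_mod_cast h1 a haS b hbS)
      (by exact_mod_cast h2 a haS b hbS) (by exact_mod_cast h3 a haS b hbS)).trans ?_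
    gcongr
    have := hSL a haS b hbS
    exact_mod_cast this
  · rw [Finset.not_nonempty_iff_eq_empty.1 hne, Finset.sum_empty, norm_zero]
    positivity

theorem t1 : T_T1 := by
  intro q θ hq hθ0 hθ1
  obtain ⟨C₀, hC₀, hvs⟩ := Pool.Agent.H32.PZ.vs 4 (by norm_num)
  have hq0 : (0 : ℝ) < q := by exact_mod_cast hq
  have hpi := Real.pi_pos
  set c : ℝ := θ * (1 - θ) * q ^ 2 * 2 ^ (θ - 2) / (2 * Real.pi) with hc
  have hc0 : 0 < c := by
    have : 0 < 1 - θ := by linarith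
    positivity
  have hsc : 0 < Real.sqrt c := Real.sqrt_pos.2 hc0
  refine ⟨q * (C₀ * (2 * Real.sqrt c + 1 / Real.sqrt c)), by positivity, ?_⟩
  intro g K₁ K₂ γ hg hg1 hK₁ hK hK₂ hγ
  have hK0 : (0 : ℝ) < K₁ := by exact_mod_cast hK₁
  set F : ℝ := γ * (K₁ : ℝ) ^ θ with hF
  have hF0 : 0 < F := by positivity
  have hsF : 0 < Real.sqrt F := Real.sqrt_pos.2 hF0
  set lam : ℝ := c * (F / K₁ ^ 2) with hlam
  have hlam0 : 0 < lam := by positivity
  have hsl : Real.sqrt lam = Real.sqrt c * (Real.sqrt F / K₁) := by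
    rw [hlam, Real.sqrt_mul hc0.le, Real.sqrt_div hF0.le, Real.sqrt_sq hK0.le]
  have hper : ∀ m : ℕ, g m = g (m % q) := fun m =>
    ((show Function.Periodic g q from hg).map_mod_nat m).symm
  -- split into residue classes
  have hsplit : ∑ m ∈ Finset.Ico K₁ K₂, g m * cexp ((-(γ * (m : ℝ) ^ θ) : ℝ) * I) =
      ∑ ν ∈ Finset.range q, g ν * ∑ n ∈ (Finset.range K₂).filter
        (fun n => K₁ ≤ q * n + ν ∧ q * n + ν < K₂),
        cexp ((2 * Real.pi * (-(γ * (q * (n : ℝ) + ν) ^ θ) / (2 * Real.pi)) : ℝ) * I) := by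
    rw [← Finset.sum_fiberwise_of_maps_to (s := Finset.Ico K₁ K₂) (t := Finset.range q)
      (g := fun m => m % q) (fun m _ => Finset.mem_range.2 (Nat.mod_lt _ hq))]
    refine Finset.sum_congr rfl fun ν hν => ?_
    rw [Finset.mem_range] at hν
    rw [Finset.mul_sum]
    refine Finset.sum_bij' (fun m _ => m / q) (fun n _ => q * n + ν) ?_ ?_ ?_ ?_ ?_
    · intro m hm
      rw [Finset.mem_filter, Finset.mem_Ico] at hm
      obtain ⟨⟨h1, h2⟩, h3⟩ := hm
      have h4 : q * (m / q) + ν = m := by rw [← h3]; exact Nat.div_add_mod m q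
      rw [Finset.mem_filter, Finset.mem_range, h4]
      exact ⟨(Nat.div_le_self m q).trans_lt h2, h1, h2⟩
    · intro n hn
      rw [Finset.mem_filter] at hn
      rw [Finset.mem_filter, Finset.mem_Ico]
      refine ⟨hn.2, ?_⟩
      rw [Nat.mul_add_mod, Nat.mod_eq_of_lt hν]
    · intro m hm
      rw [Finset.mem_filter] at hm
      rw [← hm.2]
      exact Nat.div_add_mod m q
    · intro n hn
      rw [Nat.mul_add_div (by omega), Nat.div_eq_of_lt hν, add_zero]
    · intro m hm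
      rw [Finset.mem_filter] at hm
      have h4 : (q : ℝ) * ((m / q : ℕ) : ℝ) + ν = m := by
        have : q * (m / q) + ν = m := by rw [← hm.2]; exact Nat.div_add_mod m q
        exact_mod_cast this
      rw [h4, hper m, hm.2]
      congr 3
      field_simp
  rw [hsplit]
  refine (norm_sum_le _ _).trans ?_
  have hterm : ∀ ν ∈ Finset.range q, ‖g ν * ∑ n ∈ (Finset.range K₂).filter
        (fun n => K₁ ≤ q * n + ν ∧ q * n + ν < K₂),
        cexp ((2 * Real.pi * (-(γ * (q * (n : ℝ) + ν) ^ θ) / (2 * Real.pi)) : ℝ) * I)‖ ≤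
      C₀ * (2 * Real.sqrt c + 1 / Real.sqrt c) * (Real.sqrt F + K₁ / Real.sqrt F) := by
    intro ν hν
    rw [norm_mul]
    refine (mul_le_of_le_one_left (norm_nonneg _) (hg1 ν)).trans ?_
    set S := (Finset.range K₂).filter (fun n => K₁ ≤ q * n + ν ∧ q * n + ν < K₂) with hS
    have hmem : ∀ n : ℕ, n ∈ S → K₁ ≤ q * n + ν ∧ q * n + ν < K₂ := fun n hn =>
      (Finset.mem_filter.1 hn).2
    have hrange : ∀ a ∈ S, ∀ b ∈ S, ∀ x ∈ Icc (a : ℝ) b, (K₁ : ℝ) ≤ q * x + ν ∧
        q * x + ν ≤ 2 * K₁ := by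
      intro a ha b hb x hx
      have h1 := (hmem a ha).1
      have h2 := (hmem b hb).2
      have h3 : (K₁ : ℝ) ≤ q * a + ν := by exact_mod_cast h1
      have h4 : (q * b + ν : ℝ) ≤ 2 * K₁ := by exact_mod_cast (h2.le.trans hK₂)
      have h5 : (q : ℝ) * a ≤ q * x := mul_le_mul_of_nonneg_left hx.1 hq0.le
      have h6 : (q : ℝ) * x ≤ q * b := mul_le_mul_of_nonneg_left hx.2 hq0.le
      exact ⟨by linarith, by linarith⟩
    have key := vs_nat hC₀ hvs S (2 * K₁) (by positivity) ?_ ?_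
      (fun x => -(γ * (q * x + ν) ^ θ) / (2 * Real.pi))
      (fun x => -(γ * (q * θ * (q * x + ν) ^ (θ - 1))) / (2 * Real.pi))
      (fun x => -(γ * (q * θ * (q * (θ - 1) * (q * x + ν) ^ (θ - 1 - 1)))) / (2 * Real.pi))
      lam hlam0 ?_ ?_ ?_
    · refine key.trans ?_
      rw [hsl, mul_assoc C₀]
      refine mul_le_mul_of_nonneg_left ?_ hC₀.le
      have e1 : 2 * K₁ * (Real.sqrt c * (Real.sqrt F / K₁)) = 2 * Real.sqrt c * Real.sqrt F := by
        field_simp
      have e2 : 1 / (Real.sqrt c * (Real.sqrt F / K₁)) = 1 / Real.sqrt c * (K₁ / Real.sqrt F) := by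
        field_simp
      rw [e1, e2]
      have e3 : 0 ≤ 2 * Real.sqrt c * (K₁ / Real.sqrt F) := by positivity
      have e4 : 0 ≤ 1 / Real.sqrt c * Real.sqrt F := by positivity
      nlinarith
    · intro x hx z hz y hxy hyz
      have h1 := (hmem x hx).1
      have h2 := (hmem z hz).2
      have h3 : q * x ≤ q * y := Nat.mul_le_mul_left q hxy
      have h4 : q * y ≤ q * z := Nat.mul_le_mul_left q hyz
      rw [hS, Finset.mem_filter, Finset.mem_range]
      have h5 : z < K₂ := Finset.mem_range.1 (Finset.mem_filter.1 hz).1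
      exact ⟨by omega, by omega, by omega⟩
    · intro x hx z hz
      have h1 := (hmem x hx).1
      have h2 := (hmem z hz).2
      have h3 : q * z ≤ q * x + K₁ := by omega
      have h4 : (q : ℝ) * z ≤ q * x + K₁ := by exact_mod_cast h3
      have h5 : (1 : ℝ) ≤ q := by exact_mod_cast hq
      have h6 : (1 : ℝ) ≤ K₁ := by exact_mod_cast hK₁
      by_cases h7 : (z : ℝ) ≤ x
      · linarith
      · push Not at h7
        nlinarith
    · intro a ha b hb x hx
      have h1 := (hrange a ha b hb x hx).1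
      have h2 : 0 < q * x + ν := by linarith
      have h3 : HasDerivAt (fun x : ℝ => q * x + ν) q x := by
        simpa using ((hasDerivAt_id x).const_mul (q : ℝ)).add_const (ν : ℝ)
      exact ((h3.rpow_const (p := θ) (Or.inl h2.ne')).const_mul γ).neg.div_const _
    · intro a ha b hb x hx
      have h1 := (hrange a ha b hb x hx).1
      have h2 : 0 < q * x + ν := by linarith
      have h3 : HasDerivAt (fun x : ℝ => q * x + ν) q x := by
        simpa using ((hasDerivAt_id x).const_mul (q : ℝ)).add_const (ν : ℝ)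
      exact (((h3.rpow_const (p := θ - 1) (Or.inl h2.ne')).const_mul (q * θ)).const_mul
        γ).neg.div_const _
    · intro a ha b hb x hx
      obtain ⟨h1, h2⟩ := hrange a ha b hb x hx
      have h0 : 0 < q * x + ν := by linarith
      have e1 : θ - 1 - 1 = θ - 2 := by ring
      have e2 : -(γ * (q * θ * (q * (θ - 1) * (q * x + ν) ^ (θ - 1 - 1)))) / (2 * Real.pi) =
          γ * (θ * (1 - θ) * q ^ 2 / (2 * Real.pi)) * (q * x + ν) ^ (θ - 2) := by
        rw [e1]
        field_simp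
        ring
      have e3 : F / K₁ ^ 2 = γ * (K₁ : ℝ) ^ (θ - 2) := by
        rw [hF, Real.rpow_sub hK0]
        norm_num
        ring
      have e4 : lam = γ * (θ * (1 - θ) * q ^ 2 / (2 * Real.pi)) * (2 * K₁ : ℝ) ^ (θ - 2) := by
        rw [hlam, e3, hc, Real.mul_rpow (by norm_num) hK0.le]
        ring
      have e5 : 0 ≤ γ * (θ * (1 - θ) * q ^ 2 / (2 * Real.pi)) := by
        have : 0 < 1 - θ := by linarith
        positivity
      constructor
      · rw [e2, e4]
        refine mul_le_mul_of_nonneg_left ?_ e5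
        exact Real.rpow_le_rpow_of_nonpos h0 h2 (by linarith)
      · rw [e2, e4]
        have e6 : (q * x + ν : ℝ) ^ (θ - 2) ≤ (K₁ : ℝ) ^ (θ - 2) :=
          Real.rpow_le_rpow_of_nonpos hK0 h1 (by linarith)
        have e7 : (K₁ : ℝ) ^ (θ - 2) ≤ 4 * (2 * K₁ : ℝ) ^ (θ - 2) := by
          rw [Real.mul_rpow (by norm_num) hK0.le]
          have e8 : (1 : ℝ) / 4 ≤ 2 ^ (θ - 2) := by
            have : (1 : ℝ) / 4 = 2 ^ (-2 : ℝ) := by
              rw [Real.rpow_neg (by norm_num)]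
              norm_num
            rw [this]
            exact Real.rpow_le_rpow_of_exponent_le (by norm_num) (by linarith)
          have e9 : 0 ≤ (K₁ : ℝ) ^ (θ - 2) := by positivity
          nlinarith
        calc γ * (θ * (1 - θ) * q ^ 2 / (2 * Real.pi)) * (q * x + ν) ^ (θ - 2) ≤
            γ * (θ * (1 - θ) * q ^ 2 / (2 * Real.pi)) * (4 * (2 * K₁ : ℝ) ^ (θ - 2)) := by
              refine mul_le_mul_of_nonneg_left (e6.trans e7) e5
          _ = 4 * (γ * (θ * (1 - θ) * q ^ 2 / (2 * Real.pi)) * (2 * K₁ : ℝ) ^ (θ - 2)) := by ring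
  refine (Finset.sum_le_sum hterm).trans ?_
  rw [Finset.sum_const, Finset.card_range, nsmul_eq_mul]
  exact le_of_eq (by ring)

end Pool.Agent.H29.DP.T1
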