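import Pool.Agent.H25.DP.Targets2

/-!
# Two dilations: module VA (Vaughan's identity for the Möbius function)
-/

set_option autoImplicit false

open Complex MeasureTheory Set Filter Topology

namespace Pool.Agent.H29.DP.VA

open Pool.Agent.H25.DP ArithmeticFunction

/-- the truncated Möbius function -/
def mU (U : ℕ) : ArithmeticFunction ℤ := ⟨fun n => if n ≤ U then moebius n else 0, by simp⟩

lemma mU_apply (U n : ℕ) : mU U n = if n ≤ U then moebius n else 0 := rfl

lemma sub_app (f g : ArithmeticFunction ℤ) (n : ℕ) : (f - g) n = f n - g n := by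
  rw [sub_eq_add_neg, ArithmeticFunction.add_apply, sub_eq_add_neg]
  rfl

lemma ident (U : ℕ) : (moebius - mU U) * (1 - (zeta : ArithmeticFunction ℤ) * mU U) =
    moebius - 2 * mU U + (zeta : ArithmeticFunction ℤ) * (mU U * mU U) := by
  have h : moebius * (zeta : ArithmeticFunction ℤ) = 1 := moebius_mul_coe_zeta
  calc (moebius - mU U) * (1 - (zeta : ArithmeticFunction ℤ) * mU U) =
      moebius - mU U - (moebius * (zeta : ArithmeticFunction ℤ)) * mU U +
        (zeta : ArithmeticFunction ℤ) * (mU U * mU U) := by ring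
    _ = _ := by rw [h]; ring

lemma zm_apply (U n : ℕ) : ((zeta : ArithmeticFunction ℤ) * mU U) n =
    ∑ d ∈ n.divisors.filter (fun d => d ≤ U), moebius d := by
  rw [coe_zeta_mul_apply, Finset.sum_filter]
  rfl

lemma zm_small {U n : ℕ} (hn : n ≠ 0) (hU : n ≤ U) :
    (1 - (zeta : ArithmeticFunction ℤ) * mU U) n = 0 := by
  have h1 : ((zeta : ArithmeticFunction ℤ) * mU U) n =
      ((zeta : ArithmeticFunction ℤ) * moebius) n := by
    rw [coe_zeta_mul_apply, coe_zeta_mul_apply]
    refine Finset.sum_congr rfl fun d hd => ?_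
    rw [mU_apply, if_pos ((Nat.divisor_le hd).trans hU)]
  rw [sub_app, h1, coe_zeta_mul_moebius, sub_self]

theorem va : T_VA := by
  intro U k hU hk
  have hk0 : k ≠ 0 := by omega
  have h1 : ((moebius - mU U) * (1 - (zeta : ArithmeticFunction ℤ) * mU U)) k =
      (moebius - 2 * mU U + (zeta : ArithmeticFunction ℤ) * (mU U * mU U)) k := by rw [ident U]
  have h2 : (2 * mU U) k = 0 := by
    rw [two_mul, ArithmeticFunction.add_apply, mU_apply, if_neg (by omega), add_zero]
  rw [ArithmeticFunction.add_apply, sub_app, h2, sub_zero,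
    coe_zeta_mul_apply, ArithmeticFunction.mul_apply] at h1
  have h3 : ∑ r ∈ k.divisors, (mU U * mU U) r = ∑ r ∈ k.divisors.filter (fun r => r ≤ U * U),
        ∑ p ∈ r.divisorsAntidiagonal.filter (fun p => p.1 ≤ U ∧ p.2 ≤ U),
          ArithmeticFunction.moebius p.1 * ArithmeticFunction.moebius p.2 := by
    have h4 : ∀ r ∈ k.divisors, (mU U * mU U) r =
        ∑ p ∈ r.divisorsAntidiagonal.filter (fun p => p.1 ≤ U ∧ p.2 ≤ U),
          ArithmeticFunction.moebius p.1 * ArithmeticFunction.moebius p.2 := by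
      intro r _
      rw [ArithmeticFunction.mul_apply, Finset.sum_filter]
      refine Finset.sum_congr rfl fun p _ => ?_
      rw [mU_apply, mU_apply]
      by_cases a : p.1 ≤ U <;> by_cases b : p.2 ≤ U <;> simp [a, b]
    rw [Finset.sum_congr rfl h4, Finset.sum_filter]
    refine Finset.sum_congr rfl fun r _ => ?_
    split_ifs with h5
    · rfl
    · refine Finset.sum_eq_zero fun p hp => ?_
      exfalso
      rw [Finset.mem_filter, Nat.mem_divisorsAntidiagonal] at hp
      obtain ⟨⟨h6, _⟩, h7, h8⟩ := hp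
      exact h5 (h6 ▸ Nat.mul_le_mul h7 h8)
  have h4 : ∑ x ∈ k.divisorsAntidiagonal,
      (moebius - mU U) x.1 * (1 - (zeta : ArithmeticFunction ℤ) * mU U) x.2 =
      -∑ p ∈ k.divisorsAntidiagonal.filter (fun p => U < p.1 ∧ U < p.2),
      ArithmeticFunction.moebius p.1 *
        ∑ d ∈ p.2.divisors.filter (fun d => d ≤ U), ArithmeticFunction.moebius d := by
    rw [Finset.sum_filter, ← Finset.sum_neg_distrib]
    refine Finset.sum_congr rfl fun p hp => ?_
    rw [Nat.mem_divisorsAntidiagonal] at hp
    obtain ⟨h6, h7⟩ := hp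
    have hp2 : p.2 ≠ 0 := by
      intro h
      rw [h, mul_zero] at h6
      exact h7 h6.symm
    by_cases h8 : U < p.2
    · by_cases h9 : U < p.1
      · rw [if_pos ⟨h9, h8⟩, sub_app, mU_apply, if_neg (by omega), sub_zero,
          sub_app, ArithmeticFunction.one_apply_ne (by omega), zm_apply]
        ring
      · rw [if_neg fun h => h9 h.1, sub_app, mU_apply, if_pos (by omega),
          sub_self, zero_mul, neg_zero]
    · rw [if_neg fun h => h8 h.2, zm_small hp2 (by omega), mul_zero, neg_zero]
  rw [h3, h4] at h1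
  linarith

end Pool.Agent.H29.DP.VA
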